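import Mathlib
import Pool.Agent.PTP.Basic

/-!
# Pythagorean triples with equal products: a gap principle

If `κ^2` divides `a + i b` and `a' + i b'` in the Gaussian integers, `κ = u + i v` with coprime `u, v` and
odd norm `K`, and the Pythagorean triples `(a, b, c)`, `(a', b', c')` are different and have the same
product, then `K^5 ≤ c^3 + c'^3`.
-/

set_option autoImplicit false

namespace Pool.Agent.Results.MP_98f8fa_nt.GaussGap

open Pool.Agent.PTP

/-- **Gap principle for common Gaussian divisors.** -/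
theorem result (a b c a' b' c' u v : ℤ) (ha : 0 < a) (hb : 0 < b) (hc : 0 < c) (ha' : 0 < a')
    (hb' : 0 < b') (hc' : 0 < c') (h : a ^ 2 + b ^ 2 = c ^ 2) (h' : a' ^ 2 + b' ^ 2 = c' ^ 2)
    (hN : a * b * c = a' * b' * c') (huv : IsCoprime u v) (hodd : Odd (u ^ 2 + v ^ 2))
    (h1 : (⟨u, v⟩ : GaussianInt) ^ 2 ∣ ⟨a, b⟩) (h2 : (⟨u, v⟩ : GaussianInt) ^ 2 ∣ ⟨a', b'⟩) :
    (a = a' ∧ b = b' ∧ c = c') ∨ (u ^ 2 + v ^ 2) ^ 5 ≤ c ^ 3 + c' ^ 3 :=
  gapG ha hb hc ha' hb' hc' h h' hN huv hodd h1 h2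

end Pool.Agent.Results.MP_98f8fa_nt.GaussGap
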