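import Mathlib
import Pool.Agent.PTP.Basic

/-!
# Pythagorean triples with equal products: no large prime power factor

Let two different Pythagorean triples have the same product `N`, and let `Q = q^k` be a power of an
odd prime `q` which divides `N` (`q` does not divide both legs of the first triple; if `k ≥ 2`, also
not both legs of the second).  Then `Q^25 < 32 N^6`.  If `Q^10 ≥ 32 N^2` then `Q` divides both
hypotenuses `c`, `c'`, and `Q^5 ≤ c^3 + c'^3`.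
-/

set_option autoImplicit false

namespace Pool.Agent.Results.MP_98f8fa_nt.LargePrime

open Pool.Agent.PTP

/-- **Large prime factors determine the triple.** -/
theorem result (a b c a' b' c' q k : ℕ) (ha : 0 < a) (hb : 0 < b) (ha' : 0 < a') (hb' : 0 < b')
    (h : a ^ 2 + b ^ 2 = c ^ 2) (h' : a' ^ 2 + b' ^ 2 = c' ^ 2) (hN : a * b * c = a' * b' * c')
    (hne : ({a, b, c} : Multiset ℕ) ≠ {a', b', c'}) (hq : q.Prime) (hq2 : q ≠ 2)
    (hqN : q ^ k ∣ a * b * c) (hqab : ¬ (q ∣ a ∧ q ∣ b)) (hqab' : k = 1 ∨ ¬ (q ∣ a' ∧ q ∣ b')) :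
    (q ^ k) ^ 25 < 32 * (a * b * c) ^ 6 ∧
    (32 * (a * b * c) ^ 2 ≤ (q ^ k) ^ 10 →
      q ^ k ∣ c ∧ q ^ k ∣ c' ∧ (q ^ k) ^ 5 ≤ c ^ 3 + c' ^ 3) := by
  have h1 := c5 ha hb h
  have h2 : 5 ^ 5 ≤ c ^ 5 := Nat.pow_le_pow_left (five_le ha hb h) 5
  norm_num at h2
  have hN2 : 3125 < (a * b * c) ^ 2 := by omega
  have key : 32 * (a * b * c) ^ 2 ≤ (q ^ k) ^ 10 → (q ^ k ∣ c ∧ q ^ k ∣ c' ∧
      (q ^ k) ^ 5 ≤ c ^ 3 + c' ^ 3 ∧ (q ^ k) ^ 25 < 32 * (a * b * c) ^ 6) := by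
    intro hs
    rcases Nat.eq_zero_or_pos k with hk | hk
    · rw [hk, pow_zero, one_pow] at hs
      omega
    rcases unique ha hb ha' hb' h h' hN hq hq2 (by omega) hqN hqab hqab' hs with
      ⟨r1, r2⟩ | r
    · exfalso
      apply hne
      rcases r2 with ⟨r2, r3⟩ | ⟨r2, r3⟩
      · rw [r1, r2, r3]
      · rw [r1, r2, r3]
        exact Multiset.cons_swap _ _ _
    · exact r
  refine ⟨?_, fun hs => ⟨(key hs).1, (key hs).2.1, (key hs).2.2.1⟩⟩
  by_contra h3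
  have h4 : 32 * (a * b * c) ^ 6 ≤ (q ^ k) ^ 25 := by omega
  exact h3 (key (arith hN2 h4).2).2.2.2

end Pool.Agent.Results.MP_98f8fa_nt.LargePrime
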